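import Mathlib

namespace Pool.Agent.Results.MP_847604_al.NoMiddle

open Matrix MatrixGroups Topology Filter

instance : Fact (Nat.Prime 3) := ⟨Nat.prime_three⟩

/-- The 3-adic integers. -/
abbrev R : Type := ℤ_[3]

/-- A matrix of determinant one. -/
noncomputable def mk (a b c d : R) (h : a * d - b * c = 1) : SL(2, R) :=
  ⟨!![a, b; c, d], by rw [det_fin_two_of, h]⟩

/-- Upper elementary matrices. -/
noncomputable def U (x : R) : SL(2, R) := mk 1 x 0 1 (by simp)
/-- Lower elementary matrices. -/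
noncomputable def L (x : R) : SL(2, R) := mk 1 0 x 1 (by simp)
/-- The Weyl element. -/
noncomputable def W : SL(2, R) := mk 0 (-1) 1 0 (by simp)

lemma det1 (g : SL(2, R)) : g 0 0 * g 1 1 - g 0 1 * g 1 0 = 1 := by
  rw [← det_fin_two, g.det_coe]

lemma ext4 {g h : SL(2, R)} (h1 : g 0 0 = h 0 0) (h2 : g 0 1 = h 0 1) (h3 : g 1 0 = h 1 0)
    (h4 : g 1 1 = h 1 1) : g = h := by
  ext i j; fin_cases i <;> fin_cases j <;> assumption

lemma mul_ap (g h : SL(2, R)) (i j) : (g * h) i j = g i 0 * h 0 j + g i 1 * h 1 j := by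
  simp [Matrix.mul_apply, Fin.sum_univ_two]

lemma i00 (g : SL(2, R)) : g⁻¹ 0 0 = g 1 1 := by simp [SpecialLinearGroup.SL2_inv_expl]
lemma i01 (g : SL(2, R)) : g⁻¹ 0 1 = -g 0 1 := by simp [SpecialLinearGroup.SL2_inv_expl]
lemma i10 (g : SL(2, R)) : g⁻¹ 1 0 = -g 1 0 := by simp [SpecialLinearGroup.SL2_inv_expl]
lemma i11 (g : SL(2, R)) : g⁻¹ 1 1 = g 0 0 := by simp [SpecialLinearGroup.SL2_inv_expl]
lemma m00 (a b c d : R) (h) : mk a b c d h 0 0 = a := rfl
lemma m01 (a b c d : R) (h) : mk a b c d h 0 1 = b := rfl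
lemma m10 (a b c d : R) (h) : mk a b c d h 1 0 = c := rfl
lemma m11 (a b c d : R) (h) : mk a b c d h 1 1 = d := rfl

lemma U_add (x y : R) : U (x + y) = U x * U y := by
  apply ext4 <;> simp only [U, mul_ap, m00, m01, m10, m11] <;> ring

lemma L_add (x y : R) : L (x + y) = L x * L y := by
  apply ext4 <;> simp only [L, mul_ap, m00, m01, m10, m11] <;> ring

lemma WU (x : R) : W * U (-x) * W⁻¹ = L x := by
  apply ext4 <;> simp only [L, U, W, mul_ap, m00, m01, m10, m11, i00, i01, i10, i11] <;> ring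

variable {N : Subgroup SL(2, R)} [hN : N.Normal]

lemma tri {B : SL(2, R)} (hB : B ∈ N) (h : B 1 0 = 0) (x : R) : U ((B 0 0 ^ 2 - 1) * x) ∈ N := by
  have h1 := N.mul_mem hB (hN.conj_mem _ (N.inv_mem hB) (U x))
  have h2 := det1 B
  rw [h, mul_zero, sub_zero] at h2
  suffices h3 : B * (U x * B⁻¹ * (U x)⁻¹) = U ((B 0 0 ^ 2 - 1) * x) from h3 ▸ h1
  apply ext4 <;> simp only [U, mul_ap, m00, m01, m10, m11, i00, i01, i10, i11, h]
  · linear_combination h2
  · linear_combination (-x) * h2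
  · ring
  · linear_combination h2

lemma eig {A h : SL(2, R)} (hA : A ∈ N) {l : R} (h0 : (A * h) 0 0 = l * h 0 0)
    (h1 : (A * h) 1 0 = l * h 1 0) (x : R) : U ((l ^ 2 - 1) * x) ∈ N := by
  have h2 := hN.conj_mem' _ hA h
  have h3 : (h⁻¹ * A * h) 0 0 = l := by
    rw [mul_assoc, mul_ap, h0, h1, i00, i01]; linear_combination l * det1 h
  rw [← h3]
  refine tri h2 ?_ x
  rw [mul_assoc, mul_ap, h0, h1, i10, i11]; ring

lemma unit_of {x : R} (h : PadicInt.toZMod x ≠ 0) : IsUnit x := by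
  by_contra h1
  exact h (by rw [← RingHom.mem_ker, PadicInt.ker_toZMod]; exact h1)

lemma three : PadicInt.toZMod (3 : R) = 0 := by rw [map_ofNat]; rfl

lemma level {g : SL(2, R)} (hg : g ∈ N) (hc : g 1 0 ≠ 0) : ∃ m : R, m ≠ 0 ∧ ∀ x, U (m * x) ∈ N := by
  obtain ⟨n, hn⟩ := (unit_of (x := 1 + 3 * g 1 0) (by simp [three])).exists_right_inv
  have hd := det1 g
  let t := 3 * (2 + 3 * g 1 0) * n
  have hA := N.mul_mem hg (hN.conj_mem _ (N.inv_mem hg) (U t))
  set A := g * (U t * g⁻¹ * (U t)⁻¹) with hA'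
  have e0 : A 0 0 * (g 0 0 - n) + A 0 1 * g 1 0 = (1 + 3 * g 1 0) ^ 2 * (g 0 0 - n) := by
    simp only [hA', U, mul_ap, m00, m01, m10, m11, i00, i01, i10, i11, t]
    grind
  have e1 : A 1 0 * (g 0 0 - n) + A 1 1 * g 1 0 = (1 + 3 * g 1 0) ^ 2 * g 1 0 := by
    simp only [hA', U, mul_ap, m00, m01, m10, m11, i00, i01, i10, i11, t]
    grind
  refine ⟨((1 + 3 * g 1 0) ^ 2) ^ 2 - 1, ?_, ?_⟩
  · have h0 : ∀ x : R, 2 + 3 * x ≠ 0 := fun x => (unit_of (by
      rw [map_add, map_mul, three, zero_mul, add_zero, map_ofNat]; decide)).ne_zero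
    have h3 := mul_ne_zero (mul_ne_zero (mul_ne_zero (by norm_num : (3 : R) ≠ 0) hc) (h0 (g 1 0)))
      (h0 (2 * g 1 0 + 3 * g 1 0 ^ 2))
    exact fun h => h3 (by linear_combination h)
  · rcases ValuationRing.dvd_total (g 1 0) (g 0 0 - n) with ⟨r, hr⟩ | ⟨r, hr⟩
    · refine eig (h := mk r (-1) 1 0 (by simp)) hA (mul_left_cancel₀ hc ?_) (mul_left_cancel₀ hc ?_)
        <;> simp only [mul_ap, m00, m10]
      · rw [hr] at e0; linear_combination e0
      · rw [hr] at e1; linear_combination e1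
    · have hv : g 0 0 - n ≠ 0 := fun h => hc (by rw [hr, h, zero_mul])
      refine eig (h := L r) hA (mul_left_cancel₀ hv ?_) (mul_left_cancel₀ hv ?_)
        <;> simp only [L, mul_ap, m00, m10]
      · linear_combination e0 - A 0 1 * hr
      · linear_combination e1 + ((1 + 3 * g 1 0) ^ 2 - A 1 1) * hr

lemma decomp (g : SL(2, R)) : ∃ x y z u, g = L x * U y * L z * U u := by
  have key : ∀ g : SL(2, R), IsUnit (g 1 0) → ∃ y z u, g = U y * L z * U u := fun g h => by
    obtain ⟨n, hn⟩ := h.exists_right_inv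
    have hd := det1 g
    refine ⟨(g 0 0 - 1) * n, g 1 0, (g 1 1 - 1) * n, ?_⟩
    apply ext4 <;> simp only [U, L, mul_ap, m00, m01, m10, m11] <;> grind
  have h0 : ∀ x, L (-x) * L x = 1 := fun x => by
    rw [← L_add, neg_add_cancel]; apply ext4 <;> rfl
  have : ∃ x, IsUnit ((L x * g) 1 0) := by
    by_cases h : PadicInt.toZMod (g 1 0) = 0
    · refine ⟨1, unit_of fun h1 => ?_⟩
      have h2 := congrArg PadicInt.toZMod (det1 g)
      simp only [L, mul_ap, m10, m11, one_mul, map_add, h, add_zero] at h1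
      simp [h, h1] at h2
    · exact ⟨0, unit_of (by simpa only [L, mul_ap, m10, m11, zero_mul, one_mul, zero_add])⟩
  obtain ⟨x, hx⟩ := this
  obtain ⟨y, z, u, h⟩ := key _ hx
  exact ⟨-x, y, z, u, by rw [mul_assoc, mul_assoc, ← mul_assoc (U y), ← h, ← mul_assoc, h0, one_mul]⟩

lemma approx {m : R} (hm : m ≠ 0) (x : R) : ∃ (n : ℕ) (y : R), x = n + m * y := by
  obtain ⟨n, hn⟩ := PadicInt.denseRange_natCast.exists_dist_lt x (norm_pos_iff.2 hm)
  rcases ValuationRing.dvd_total m (x - n) with ⟨r, hr⟩ | ⟨r, hr⟩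
  · exact ⟨n, r, by rw [← hr]; ring⟩
  · rw [dist_eq_norm, hr, norm_mul] at hn
    nlinarith [r.norm_le_one, norm_nonneg (x - n)]

lemma quot {m : R} (hm : m ≠ 0) (h : ∀ x, U (m * x) ∈ N) : Countable (SL(2, R) ⧸ N) := by
  let q := QuotientGroup.mk' N
  have hU : ∀ x, ∃ n : ℕ, q (U x) = q (U n) := fun x => by
    obtain ⟨n, y, rfl⟩ := approx hm x
    exact ⟨n, by rw [U_add, map_mul, show q (U (m * y)) = 1 from (QuotientGroup.eq_one_iff _).2 (h y),
      mul_one]⟩
  have hL : ∀ x, ∃ n : ℕ, q (L x) = q (L n) := fun x => by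
    obtain ⟨n, y, rfl⟩ := approx hm x
    have : L (m * y) ∈ N := by rw [← WU, ← mul_neg]; exact hN.conj_mem _ (h _) _
    exact ⟨n, by rw [L_add, map_mul, show q (L (m * y)) = 1 from (QuotientGroup.eq_one_iff _).2 this,
      mul_one]⟩
  refine Function.Surjective.countable
    (f := fun p : ℕ × ℕ × ℕ × ℕ => q (L p.1) * q (U p.2.1) * q (L p.2.2.1) * q (U p.2.2.2)) ?_
  intro g
  obtain ⟨g, rfl⟩ := QuotientGroup.mk'_surjective N g
  obtain ⟨x, y, z, u, rfl⟩ := decomp g
  obtain ⟨x, hx⟩ := hL x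
  obtain ⟨y, hy⟩ := hU y
  obtain ⟨z, hz⟩ := hL z
  obtain ⟨u, hu⟩ := hU u
  exact ⟨(x, y, z, u), by simp only [← hx, ← hy, ← hz, ← hu, ← map_mul, q]⟩

lemma unc : Uncountable R := by
  refine not_countable_iff.1 fun h => ?_
  obtain ⟨x, y, hy⟩ := nonempty_interior_of_iUnion_of_closed (f := fun x : R => {x})
    (fun _ => isClosed_singleton) (Set.iUnion_singleton_eq_range id ▸ Set.range_id)
  obtain rfl : y = x := Set.mem_singleton_iff.1 (interior_subset hy)
  have h1 : Tendsto (fun n : ℕ => y + 3 ^ n) atTop (𝓝 (y + 0)) :=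
    (tendsto_pow_atTop_nhds_zero_of_norm_lt_one
      (by simpa using PadicInt.norm_p (p := 3) ▸ by norm_num)).const_add y
  rw [add_zero] at h1
  obtain ⟨n, hn⟩ := (h1.eventually (mem_interior_iff_mem_nhds.1 hy)).exists
  exact pow_ne_zero n (by norm_num : (3 : R) ≠ 0) (add_eq_left.1 (Set.mem_singleton_iff.1 hn))

theorem result : ∃ (G : Type) (_ : Group G) (_ : TopologicalSpace G), IsTopologicalGroup G ∧
    CompactSpace G ∧ TopologicalSpace.MetrizableSpace G ∧ NonarchimedeanGroup G ∧ Uncountable G ∧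
    ∀ N : Subgroup G, N.Normal → Countable N ∨ Countable (G ⧸ N) := by
  have he := SpecialLinearGroup.isClosedEmbedding_val (n := Fin 2) (R := R)
  have : CompactSpace (Matrix (Fin 2) (Fin 2) R) := Pi.compactSpace
  have : TopologicalSpace.MetrizableSpace (Matrix (Fin 2) (Fin 2) R) :=
    TopologicalSpace.metrizableSpace_pi
  have : TotallyDisconnectedSpace (Matrix (Fin 2) (Fin 2) R) := Pi.totallyDisconnectedSpace
  have : CompactSpace SL(2, R) := he.compactSpace
  have : TotallyDisconnectedSpace SL(2, R) := he.isEmbedding.isTotallyDisconnected_range.1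
    (isTotallyDisconnected_of_totallyDisconnectedSpace _)
  refine ⟨SL(2, R), inferInstance, inferInstance, inferInstance, inferInstance,
    he.isEmbedding.metrizableSpace, ⟨fun V hV => ?_⟩, ?_, fun N hN => ?_⟩
  · obtain ⟨H, hH⟩ := ProfiniteGrp.exist_openNormalSubgroup_sub_open_nhds_of_one isOpen_interior
      (mem_interior_iff_mem_nhds.2 hV)
    exact ⟨H.toOpenSubgroup, hH.trans interior_subset⟩
  · have := unc
    exact Function.Injective.uncountable (f := U) fun x y h => congrArg (fun g : SL(2, R) => g 0 1) h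
  · by_cases h : ∀ g ∈ N, g 1 0 = 0
    · left
      refine ((Set.toFinite {1, -1}).subset fun g hg => ?_).countable
      have h1 := h g hg
      have h2 := h _ (hN.conj_mem g hg W)
      have h3 := h _ (hN.conj_mem g hg (L 1))
      have h4 := det1 g
      simp only [L, W, mul_ap, m10, m11, i00, i10] at h2 h3
      have h5 : g 0 1 = 0 := by linear_combination -h2
      have h6 : g 1 1 = g 0 0 := by linear_combination h1 - h3 - h5
      rcases mul_self_eq_one_iff.1 (show g 0 0 * g 0 0 = 1 by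
        linear_combination h4 - g 0 0 * h6 + g 0 1 * h1) with h7 | h7
      · left; apply ext4 <;> simp [h1, h5, h6, h7]
      · right; apply ext4 <;> simp [h1, h5, h6, h7]
    · right
      push Not at h
      obtain ⟨g, hg, hc⟩ := h
      obtain ⟨m, hm, h⟩ := level hg hc
      exact quot hm h

end Pool.Agent.Results.MP_847604_al.NoMiddle
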